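import Pool.Agent.H45.SE.TarT

/-! # TCb: isomorphisms preserve the values of names -/

set_option linter.unusedVariables false

open Ordinal Order Set
open scoped ZFSet

namespace SE

open SF

namespace H16

theorem mem_gp {L π p ρ' G q' : V} : q' ∈ gp L π p ρ' G ↔
    q' ∈ Pos L ρ' ∧ ∃ q ∈ G, Le q p ∧ Le (mv π q) q' := ZFSet.mem_sep

theorem mem_ev {G Y x : V} : x ∈ ev G Y ↔ ∃ b ∈ sq, (∃ q ∈ G, ZFSet.pair q b ∈ Y) ∧ x ∈ b := by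
  unfold ev
  rw [ZFSet.mem_sUnion]
  constructor
  · rintro ⟨b, hb, hx⟩
    obtain ⟨h1, h2⟩ := ZFSet.mem_sep.1 hb
    exact ⟨b, h1, h2, hx⟩
  · rintro ⟨b, h1, h2, hx⟩
    exact ⟨b, ZFSet.mem_sep.2 ⟨h1, h2⟩, hx⟩

theorem mem_cg {G i x : V} : x ∈ cg G i ↔
    ∃ b ∈ sq, (∃ p ∈ G, i ∈ dm p ∧ fst (app p i) = b) ∧ x ∈ b := by
  unfold cg
  rw [ZFSet.mem_sUnion]
  constructor
  · rintro ⟨b, hb, hx⟩
    obtain ⟨h1, h2⟩ := ZFSet.mem_sep.1 hb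
    exact ⟨b, h1, h2, hx⟩
  · rintro ⟨b, h1, h2, hx⟩
    exact ⟨b, ZFSet.mem_sep.2 ⟨h1, h2⟩, hx⟩

end H16

open H16

theorem pf_TCb (BA : T_BA) (BC : T_BC) (BD : T_BD) (BJ : T_BJ) (BK : T_BK) (TBa : T_TBa)
    (TBb : T_TBb) (TCa : T_TCa) : T_TCb := by
  intro D hD π ρ ρ' p h G hG hpG
  obtain ⟨hLN, -, hHN, hPR, hJ⟩ := BJ D hD
  have hNρ : D.N ρ := hHN ρ h.h
  have hNρ' : D.N ρ' := hHN ρ' h.h'
  obtain ⟨hIj, hπρ, him, hmp, hmv, hmv', -, -⟩ := TBb D.L π ρ ρ' p h.c h.c' h.i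
  obtain ⟨g1, g2, g3, -, -⟩ := (TCa D hD π ρ ρ' p h).2 G hG hpG
  obtain ⟨-, ⟨hGP, h0G, hup, hjn, hrs⟩, -⟩ := (hJ ρ hNρ h.c).2 G hG
  obtain ⟨-, ⟨hGP', h0G', hup', hjn', hrs'⟩, -⟩ := (hJ ρ' hNρ' h.c').2 _ g1
  obtain ⟨-, -, -, hmemP, hrst, -⟩ := BC
  obtain ⟨-, hsubP, hrstP, hrefl, htrans, hrstLe, -, -⟩ := BD
  have hTrL : ∀ i ∈ ρ, Tr (lS i) ∧ lS i ⊆ ρ := fun i hi =>
    ⟨(h.c i hi).1.tr, (h.c i hi).2⟩
  have hTrL' : ∀ i ∈ ρ, Tr (lS (app π i)) ∧ lS (app π i) ⊆ ρ' := fun i hi =>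
    ⟨(h.c' _ (hπρ i hi)).1.tr, (h.c' _ (hπρ i hi)).2⟩
  -- a condition in `G` is below `p` and a given element of `G`
  have hbel : ∀ q ∈ G, ∃ r ∈ G, Le r q ∧ Le r p := by
    intro q hq
    obtain ⟨-, h1, h2, h3⟩ := hjn p hpG q hq
    exact ⟨_, h1, h2, h3⟩
  have hFF : ∀ q ∈ G, FF q ∧ dm q ⊆ ρ := fun q hq =>
    ⟨((hmemP D.L ρ q).1 (hGP hq)).1, ((hmemP D.L ρ q).1 (hGP hq)).2.1⟩
  have hmG : ∀ r ∈ G, Le r p → mv π r ∈ gp D.L π p ρ' G := fun r hr hrp =>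
    (g3 r (hGP hr) hrp).2 hr
  -- the generic reals
  have hcg : ∀ i ∈ ρ, cg (gp D.L π p ρ' G) (app π i) = cg G i := by
    intro i hi
    ext x
    rw [mem_cg, mem_cg]
    constructor
    · rintro ⟨b, hb, ⟨q', hq', hid, hfb⟩, hx⟩
      obtain ⟨-, r, hr, hrp, hrq⟩ := mem_gp.1 hq'
      obtain ⟨h1, h2⟩ := hFF r hr
      obtain ⟨h3, h4⟩ := hrq _ hid
      obtain ⟨-, -, hT, -⟩ := TBa.1 π ρ hIj r h1 h2
      obtain ⟨h5, h6⟩ := hT i hi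
      rw [h6] at h4
      have hir : i ∈ dm r := h5.1 h3
      refine ⟨fst (app r i), (((hmemP D.L ρ r).1 (hGP hr)).2.2 i hir).s, ⟨r, hr, hir, rfl⟩, ?_⟩
      have h7 := h4.s
      rw [hfb] at h7
      exact h7 hx
    · rintro ⟨b, hb, ⟨q, hq, hid, hfb⟩, hx⟩
      obtain ⟨r, hr, hrq, hrp⟩ := hbel q hq
      obtain ⟨h1, h2⟩ := hFF r hr
      obtain ⟨hir, h4⟩ := hrq i hid
      obtain ⟨-, -, hT, -⟩ := TBa.1 π ρ hIj r h1 h2
      obtain ⟨h5, h6⟩ := hT i hi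
      refine ⟨fst (app r i), (((hmemP D.L ρ r).1 (hGP hr)).2.2 i hir).s,
        ⟨mv π r, hmG r hr hrp, h5.2 hir, by rw [h6]⟩, ?_⟩
      have h7 := h4.s
      rw [hfb] at h7
      exact h7 hx
  -- the values of names
  have hev : ∀ i ∈ ρ, ∀ Y Y', Nam D.L (lS i) Y → Nam D.L (lS (app π i)) Y' →
      (∀ q ∈ Pos D.L (lS i), Le q (rst (lS i) p) → ∀ b,
        (ZFSet.pair q b ∈ Y ↔ ZFSet.pair (mv π q) b ∈ Y')) →
      ev (gp D.L π p ρ' G) Y' = ev G Y := by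
    intro i hi Y Y' hY hY' hag
    obtain ⟨hTr, hsub⟩ := hTrL i hi
    obtain ⟨hTr', hsub'⟩ := hTrL' i hi
    have hsup : lS (app π i) = im π (lS i) := h.i.sup i hi
    -- restriction of `r ∈ G`, `r ≤ p`
    have key : ∀ r ∈ G, Le r p → rst (lS i) r ∈ G ∧ rst (lS i) r ∈ Pos D.L (lS i) ∧
        Le (rst (lS i) r) (rst (lS i) p) ∧
        mv π (rst (lS i) r) = rst (lS (app π i)) (mv π r) ∧
        mv π (rst (lS i) r) ∈ gp D.L π p ρ' G ∧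
        mv π (rst (lS i) r) ∈ Pos D.L (lS (app π i)) := by
      intro r hr hrp
      obtain ⟨h1, h2⟩ := hFF r hr
      have e1 : mv π (rst (lS i) r) = rst (lS (app π i)) (mv π r) := by
        rw [hsup]
        exact ((TBa.1 π ρ hIj r h1 h2).2.2.2.2 (lS i) hsub).symm
      have h3 := hmG r hr hrp
      refine ⟨hrs _ hTr r hr, (hrstP D.L ρ (lS i) r (hGP hr) (fun j hj _ => hTr j hj)).1,
        hrstLe (lS i) p r (hFF p hpG).1 h1 hrp, e1, ?_, ?_⟩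
      · rw [e1]
        exact hrs' _ hTr' _ h3
      · rw [e1]
        exact (hrstP D.L ρ' (lS (app π i)) _ (hGP' h3) (fun j hj _ => hTr' j hj)).1
    ext x
    rw [mem_ev, mem_ev]
    constructor
    · rintro ⟨b, hb, ⟨q', hq', hqb⟩, hx⟩
      obtain ⟨hqP', r, hr, hrp, hrq⟩ := mem_gp.1 hq'
      obtain ⟨k1, k2, k3, k4, k5, k6⟩ := key r hr hrp
      have hq'S : q' ∈ Pos D.L (lS (app π i)) := by
        obtain ⟨q0, hq0, b0, -, e⟩ := hY'.sub _ hqb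
        rw [(ZFSet.pair_injective e).1]
        exact hq0
      have hd := ((hmemP D.L _ q').1 hq'S)
      have h5 : Le (mv π (rst (lS i) r)) q' := by
        rw [k4]
        have h6 := hrstLe (lS (app π i)) q' (mv π r) hd.1
          ((hmemP D.L ρ' _).1 (hGP' (hmG r hr hrp))).1 hrq
        rwa [((hrst (lS (app π i)) q' hd.1).2.2.2 hd.2.1)] at h6
      exact ⟨b, hb, ⟨_, k1, (hag _ k2 k3 b).2 (hY'.mono q' b hqb _ k6 h5)⟩, hx⟩
    · rintro ⟨b, hb, ⟨q, hq, hqb⟩, hx⟩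
      obtain ⟨r, hr, hrq, hrp⟩ := hbel q hq
      obtain ⟨k1, k2, k3, k4, k5, k6⟩ := key r hr hrp
      have hqS : q ∈ Pos D.L (lS i) := by
        obtain ⟨q0, hq0, b0, -, e⟩ := hY.sub _ hqb
        rw [(ZFSet.pair_injective e).1]
        exact hq0
      have hd := ((hmemP D.L _ q).1 hqS)
      have h5 : Le (rst (lS i) r) q := by
        have h6 := hrstLe (lS i) q r hd.1 (hFF r hr).1 hrq
        rwa [((hrst (lS i) q hd.1).2.2.2 hd.2.1)] at h6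
      exact ⟨b, hb, ⟨_, k5, (hag _ k2 k3 b).1 (hY.mono q b hqb _ k2 h5)⟩, hx⟩
  have hZ : AgZ D.L π ρ p → ∀ i ∈ ρ,
      ev (gp D.L π p ρ' G) (lZ (app π i)) = ev G (lZ i) := fun hA i hi =>
    hev i hi _ _ (h.c i hi).1.z (h.c' _ (hπρ i hi)).1.z (hA i hi)
  refine ⟨fun i hi => ⟨hcg i hi, hev i hi _ _ (h.c i hi).1.y (h.c' _ (hπρ i hi)).1.y
    (h.i.ag i hi), fun hA => hZ hA i hi⟩, ?_, ?_⟩
  · intro hA s hs x
    unfold Pro
    constructor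
    · rintro ⟨j, hj, h1, h2⟩
      obtain ⟨i, hi, rfl⟩ := (TBa.2.1 π s j).1 hj
      rw [hZ hA i (hs hi)] at h1 h2
      rw [hcg i (hs hi)] at h2
      exact ⟨i, hi, h1, h2⟩
    · rintro ⟨i, hi, h1, h2⟩
      refine ⟨app π i, (TBa.2.1 π s _).2 ⟨i, hi, rfl⟩, ?_, ?_⟩
      · rw [hZ hA i (hs hi)]
        exact h1
      · rw [hZ hA i (hs hi), hcg i (hs hi)]
        exact h2
  · intro s hNs hs hTr hid
    obtain ⟨hims, hmvs⟩ := TBa.2.2.2.2.1 π s hid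
    have hs' : s ⊆ ρ' := by
      intro i hi
      have := hπρ i (hs hi)
      rwa [hid i hi] at this
    have hgs : gs (gp D.L π p ρ' G) s = gs G s := by
      ext q
      unfold gs
      rw [ZFSet.mem_sep, ZFSet.mem_sep]
      constructor
      · rintro ⟨hq, hdq⟩
        obtain ⟨hqP', r, hr, hrp, hrq⟩ := mem_gp.1 hq
        obtain ⟨h1, h2⟩ := hFF r hr
        have hFq := ((hmemP D.L ρ' q).1 hqP').1
        have hm : mv π (rst s r) = rst s (mv π r) := by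
          have := ((TBa.1 π ρ hIj r h1 h2).2.2.2.2 s hs).symm
          rwa [hims] at this
        have hrS := hrstP D.L ρ s r (hGP hr) (fun j hj _ => hTr j hj)
        have hrs1 := ((hmemP D.L s _).1 hrS.1)
        have hm2 : mv π (rst s r) = rst s r := hmvs _ hrs1.1 hrs1.2.1
        have h3 := hrstLe s q (mv π r) hFq ((hmemP D.L ρ' _).1 (hGP' (hmG r hr hrp))).1 hrq
        rw [← hm, hm2, ((hrst s q hFq).2.2.2 hdq)] at h3
        have hqP : q ∈ D.P ρ :=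
          hsubP D.L s ρ q (hsubP D.L ρ' s q hqP' hdq) (fun i hi => hs (hdq hi))
        exact ⟨hup _ (hrs s hTr r hr) q hqP h3, hdq⟩
      · rintro ⟨hq, hdq⟩
        obtain ⟨r, hr, hrq, hrp⟩ := hbel q hq
        obtain ⟨h1, h2⟩ := hFF r hr
        obtain ⟨h3, h4⟩ := hFF q hq
        have h5 : Le (mv π r) (mv π q) := ((TBa.1 π ρ hIj q h3 h4).2.2.2.1 r h1 h2).1.2 hrq
        rw [hmvs q h3 hdq] at h5
        exact ⟨mem_gp.2 ⟨hsubP D.L ρ ρ' q (hGP hq) (fun i hi => hs' (hdq hi)), r, hr, hrp, h5⟩,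
          hdq⟩
    refine ⟨hims, hs', hgs, fun Y hNY hY => ?_⟩
    have e1 := ((BK D hD ρ G hNρ h.c hG).1 s Y hNs hs hTr hNY hY).2.2.2.2.2 s (fun _ hx => hx)
    have e2 := ((BK D hD ρ' _ hNρ' h.c' g1).1 s Y hNs hs' hTr hNY hY).2.2.2.2.2 s
      (fun _ hx => hx)
    rw [← e1, ← e2, hgs]

end SE
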